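import Pool.Agent.W495.FM.HomFive
import Pool.Agent.Y116.UV.Defs

/-!
# Motivic and étale homology of schemes over finite fields: definitions

A `Node Ω` (starting library, `W495/FM/HomFive`) is a rational vector space `M`, a finite-dimensional
vector space `E` over `Ω` with an endomorphism `φ`, and a homomorphism `ρ` from `M` to the elements of
`E` fixed by `φ`. In the application `M = H_i^M(X, ℚ(j))` is a motivic homology group (a higher Chow
group) of a scheme `X` over a finite field, `E` is the `ℓ`-adic étale homology group
`H_i(X, ℚ_ℓ(j))` of `X` over the algebraic closure, `φ` the Frobenius and `ρ` the regulator.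
-/

set_option autoImplicit false

open CategoryTheory AlgebraicGeometry Pool.Agent.W495.FM Pool.Agent.Y116.UV

namespace Pool.Agent.V5helper77.TB

variable {Ω : Type} [Field Ω] [CharZero Ω]

/-- The regulator `ρ` induces, after extension of scalars from `ℚ` to `Ω`, an isomorphism of `M` with
the space of the elements of `E` fixed by `φ` (these are the linear combinations of the images, and
linearly independent elements have linearly independent images), and the eigenvalue one of `φ` is
semisimple. -/
def RegIso (A : Node Ω) : Prop :=
  (∀ e, A.φ e = e ↔ e ∈ Submodule.span Ω (Set.range A.ρ)) ∧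
    (∀ (r : ℕ) (x : Fin r → A.M), LinearIndependent ℚ x →
      LinearIndependent Ω fun k => A.ρ (x k)) ∧
    ∀ e, A.φ (A.φ e - e) = A.φ e - e → A.φ e = e

/-- The groups, the regulators and the Frobenius maps of `A` are isomorphic to those of `B`. -/
def Same (A B : Node Ω) : Prop :=
  ∃ (a : Arrow A B) (b : Arrow B A), (∀ x, b.f (a.f x) = x) ∧ (∀ x, b.g (a.g x) = x) ∧
    (∀ y, a.f (b.f y) = y) ∧ ∀ y, a.g (b.g y) = y

/-- `A` is a direct summand of `B`. -/
def Summand (A B : Node Ω) : Prop :=
  ∃ (a : Arrow A B) (b : Arrow B A), (∀ x, b.f (a.f x) = x) ∧ ∀ x, b.g (a.g x) = x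

/-- Exactness of both sequences. -/
def Ex {A B C : Node Ω} (a : Arrow A B) (b : Arrow B C) : Prop :=
  Function.Exact a.f b.f ∧ Function.Exact a.g b.g

/-- `⋯ → H_i(Z, j) → H_i(X, j) → H_i(U, j) → H_(i-1)(Z, j) → ⋯` is exact, for motivic and for étale
homology; all maps commute with the regulators and with the Frobenius. -/
def Les {V : Type 1} (T : V → ℤ → ℤ → Node Ω) (Z X U : V) : Prop :=
  ∀ j : ℤ, ∃ (a : ∀ i, Arrow (T Z i j) (T X i j)) (b : ∀ i, Arrow (T X i j) (T U i j))
    (d : ∀ i, Arrow (T U (i + 1) j) (T Z i j)),
    ∀ i, Ex (a i) (b i) ∧ Ex (b (i + 1)) (d i) ∧ Ex (d i) (a i)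

/-- **Jannsen's conjecture** `TB(X)`: for all `i`, `j` the regulator induces an isomorphism of
`H_i^M(X, ℚ(j)) ⊗ Ω` with the Frobenius invariants in the étale homology, and the eigenvalue one of the
Frobenius is semisimple. -/
def TBconj {V : Type 1} (T : V → ℤ → ℤ → Node Ω) (X : V) : Prop := ∀ i j : ℤ, RegIso (T X i j)

/-- The properties of motivic and of étale homology of the separated schemes of finite type over a finite
field `k` of characteristic different from `ℓ` that are used.

* `iso`: isomorphic schemes have isomorphic groups;
* `localization`: the long exact sequences for a closed subscheme `Z` of `X` and its complement `U`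
  (Bloch, Levine; Laumon);
* `bundle`: homotopy invariance for the affine bundle `Spec B[w_1, …, w_m] / (∑ f_l w_l - 1) → U` with
  fibre `𝔸^(m-1)`, `U` the complement of `f = 0` in `Spec B`;
* `torus`: the pull-back makes `H_i(X, j)` a direct summand of `H_(i+2)(X × 𝔾_m, j+1)` (the projection
  onto it is the restriction to `X × {1}`);
* `point`: the regulators of `Spec k` (Quillen). -/
structure IsHomologyTheory {k : Type} [Field k] (T : Sch k → ℤ → ℤ → Node Ω) : Prop where
  iso : ∀ {X Y : Sch k}, FT True X → Nonempty (X ≅ Y) → ∀ i j, Same (T X i j) (T Y i j)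
  localization : ∀ {Z X U : Sch k} (i : Z ⟶ X) (j : U ⟶ X), FT True X → IsTriple i j →
    Les T Z X U
  bundle : ∀ (B : Type) [CommRing B] [Algebra k B] [Algebra.FiniteType k B] (m : ℕ)
    (f : Fin m → B) (U : Sch k) (j : U ⟶ aff k B), IsOpenImmersion j.left →
    Set.range j.left = {x : PrimeSpectrum B | ∃ l, f l ∉ x.asIdeal} →
    ∀ i r : ℤ, Same (T U i r) (T (aff k (Jou f)) (i + 2 * (m - 1)) (r + (m - 1)))
  torus : ∀ (B : Type) [CommRing B] [Algebra k B] [Algebra.FiniteType k B] (i r : ℤ),
    Summand (T (aff k B) i r) (T (aff k (LaurentPolynomial B)) (i + 2) (r + 1))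
  point : ∀ i j : ℤ, RegIso (T (aff k k) i j)

/-- The scheme `X` over `K`, regarded as a scheme over the prime field. -/
noncomputable def res (p : ℕ) (K : Type) [Field K] [Algebra (ZMod p) K] (X : Sch K) :
    Sch (ZMod p) :=
  Over.mk (X.hom ≫ Spec.map (CommRingCat.ofHom (algebraMap (ZMod p) K)))

/-- The space `E ^ r` with the endomorphism `(e_0, …, e_(r-1)) ↦ (φ e_(r-1), e_0, …, e_(r-2))` and the
diagonal map `M → E ^ r` (the induced representation of the Frobenius of the prime field). -/
def cyc (r : ℕ) [NeZero r] (A : Node Ω) : Node Ω where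
  M := A.M
  E := Fin r → A.E
  φ :=
    { toFun := fun e s => if s = 0 then A.φ (e (s - 1)) else e (s - 1)
      map_add' := fun x y => by
        funext s
        simp only [Pi.add_apply, map_add]
        split_ifs <;> rfl
      map_smul' := fun c x => by
        funext s
        simp only [Pi.smul_apply, map_smul, RingHom.id_apply]
        split_ifs <;> rfl }
  ρ :=
    { toFun := fun x _ => A.ρ x
      map_zero' := funext fun _ => map_zero _
      map_add' := fun x y => funext fun _ => map_add _ x y }
  inv x := by
    funext s
    change (if s = 0 then A.φ (A.ρ x) else A.ρ x) = A.ρ x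
    split_ifs
    · exact A.inv x
    · rfl

/-- Motivic and étale homology over all finite fields `k` of characteristic different from `ℓ`: the
properties above for each `k`, and the relation between the groups of a scheme `X` over `K` and the
groups of `X` as a scheme over the prime field: the motivic groups are the same, and the étale homology
over the algebraic closure is the induced representation. -/
structure IsTheory (ℓ : ℕ) (T : ∀ (k : Type) [Field k] [Finite k], Sch k → ℤ → ℤ → Node Ω) :
    Prop where
  field : ∀ (k : Type) [Field k] [Finite k], (ℓ : k) ≠ 0 → IsHomologyTheory (T k)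
  restriction : ∀ (p : ℕ) [Fact p.Prime] (K : Type) [Field K] [Finite K] [Algebra (ZMod p) K]
    [NeZero (Module.finrank (ZMod p) K)], p ≠ ℓ → ∀ X : Sch K, FT True X → ∀ i j : ℤ,
    Same (T (ZMod p) (res p K X) i j) (cyc (Module.finrank (ZMod p) K) (T K X i j))

end Pool.Agent.V5helper77.TB
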