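import Pool.Agent.V5helper77.TB.Defs
import Pool.Agent.Q193.LT.Pair
import Pool.Agent.Q282.UZ.Fam
import Pool.Agent.Q282.UZ.Short
import Pool.Agent.Q282.UZ.Sys

/-!
# Jannsen's conjecture and trilinear forms
-/

set_option autoImplicit false
set_option linter.unusedSectionVars false

open CategoryTheory AlgebraicGeometry MvPolynomial
open Pool.Agent.W495.FM Pool.Agent.Y116.UV Pool.Agent.Z125.UN Pool.Agent.Q193.LT
  Pool.Agent.Q282.UK Pool.Agent.Q282.UZ

namespace Pool.Agent.V5helper77.TB

section node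

variable {Ω : Type} [Field Ω] [CharZero Ω]

theorem regIso_iff (A : Node Ω) : RegIso A ↔ A.Good := A.good_iff.symm

theorem Summand.regIso {A B : Node Ω} (h : Summand A B) (hB : RegIso B) : RegIso A := by
  obtain ⟨a, b, h1, h2⟩ := h
  rw [regIso_iff] at hB ⊢
  exact good_retract a b h1 h2 hB

theorem Same.symm {A B : Node Ω} (h : Same A B) : Same B A := by
  obtain ⟨a, b, h1, h2, h3, h4⟩ := h
  exact ⟨b, a, h3, h4, h1, h2⟩

theorem Same.regIso {A B : Node Ω} (h : Same A B) (hB : RegIso B) : RegIso A := by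
  obtain ⟨a, b, h1, h2, -, -⟩ := h
  exact Summand.regIso ⟨a, b, h1, h2⟩ hB

theorem Same.iff {A B : Node Ω} (h : Same A B) : RegIso A ↔ RegIso B :=
  ⟨h.symm.regIso, h.regIso⟩

section les

variable {V : Type 1} {T : V → ℤ → ℤ → Node Ω} {Z X U : V}

theorem Les.closed (h : Les T Z X U) (hX : TBconj T X) (hU : TBconj T U) : TBconj T Z := by
  intro i j
  obtain ⟨a, b, d, h⟩ := h j
  have hX' := fun i => (regIso_iff _).mp (hX i j)
  have hU' := fun i => (regIso_iff _).mp (hU i j)
  rw [regIso_iff]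
  exact five (b (i + 1)) (d i) (a i) (b i)
    (h i).2.1.1 (h i).2.2.1 (h i).1.1 (h i).2.1.2 (h i).2.2.2 (h i).1.2
    (hX' (i + 1)) (hU' (i + 1)) (hX' i) (hU' i)

theorem Les.total (h : Les T Z X U) (hZ : TBconj T Z) (hU : TBconj T U) : TBconj T X := by
  intro i j
  obtain ⟨i, rfl⟩ : ∃ k, i = k + 1 := ⟨i - 1, by ring⟩
  obtain ⟨a, b, d, h⟩ := h j
  have hZ' := fun i => (regIso_iff _).mp (hZ i j)
  have hU' := fun i => (regIso_iff _).mp (hU i j)
  rw [regIso_iff]
  exact five (d (i + 1)) (a (i + 1)) (b (i + 1)) (d i)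
    (h (i + 1)).2.2.1 (h (i + 1)).1.1 (h i).2.1.1 (h (i + 1)).2.2.2 (h (i + 1)).1.2
    (h i).2.1.2
    (hU' (i + 1 + 1)) (hZ' (i + 1)) (hU' (i + 1)) (hZ' i)

theorem Les.opened (h : Les T Z X U) (hZ : TBconj T Z) (hX : TBconj T X) : TBconj T U := by
  intro i j
  obtain ⟨i, rfl⟩ : ∃ k, i = k + 1 := ⟨i - 1, by ring⟩
  obtain ⟨a, b, d, h⟩ := h j
  have hZ' := fun i => (regIso_iff _).mp (hZ i j)
  have hX' := fun i => (regIso_iff _).mp (hX i j)
  rw [regIso_iff]
  exact five (a (i + 1)) (b (i + 1)) (d i) (a i)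
    (h (i + 1)).1.1 (h i).2.1.1 (h i).2.2.1 (h (i + 1)).1.2 (h i).2.1.2 (h i).2.2.2
    (hZ' (i + 1)) (hX' (i + 1)) (hZ' i) (hX' i)

end les

section cyc

variable {r : ℕ} [NeZero r] (A : Node Ω)

theorem cyc_φ (e : Fin r → A.E) (s : Fin r) :
    (cyc r A).φ e s = if s = 0 then A.φ (e (s - 1)) else e (s - 1) := rfl

/-- From the induced representation to the given one. -/
theorem regIso_of_cyc (h : RegIso (cyc r A)) : RegIso A := by
  obtain ⟨h1, h2, h3⟩ := h
  have hr : (r : Ω) ≠ 0 := Nat.cast_ne_zero.mpr (NeZero.ne r)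
  have hconst : ∀ v : A.E, A.φ v = v → (cyc r A).φ (fun _ : Fin r => v) = fun _ => v := by
    intro v hv
    funext s
    rw [cyc_φ]
    split_ifs
    · exact hv
    · rfl
  refine ⟨fun e => ⟨fun he => ?_, fun he => ?_⟩, fun n x hx => ?_, fun e he => ?_⟩
  · have h4 := (h1 fun _ => e).mp (hconst e he)
    have h5 : ∀ f ∈ Submodule.span Ω (Set.range (cyc r A).ρ),
        (f : Fin r → A.E) 0 ∈ Submodule.span Ω (Set.range A.ρ) := by
      intro f hf
      induction hf using Submodule.span_induction with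
      | mem f hf =>
        obtain ⟨x, rfl⟩ := hf
        exact Submodule.subset_span ⟨x, rfl⟩
      | zero => exact Submodule.zero_mem _
      | add f g _ _ hf hg => exact Submodule.add_mem _ hf hg
      | smul c f _ hf => exact Submodule.smul_mem _ c hf
    exact h5 _ h4
  · induction he using Submodule.span_induction with
    | mem f hf =>
      obtain ⟨x, rfl⟩ := hf
      exact A.inv x
    | zero => exact map_zero _
    | add f g _ _ hf hg => rw [map_add, hf, hg]
    | smul c f _ hf => rw [map_smul, hf]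
  · have h4 : LinearIndependent Ω fun k => (cyc r A).ρ (x k) := h2 n x hx
    let L : A.E →ₗ[Ω] (Fin r → A.E) := LinearMap.pi fun _ => LinearMap.id
    have h5 : (fun k => (cyc r A).ρ (x k)) = L ∘ fun k => A.ρ (x k) := rfl
    rw [h5] at h4
    exact h4.of_comp L
  · let δ : A.E := A.φ e - e
    let c : Ω := (r : Ω)⁻¹
    have hδ : A.φ δ = δ := he
    let f : (cyc r A).E := fun s : Fin r => e - ((s : ℕ) : Ω) • (c • δ)
    have hf : (cyc r A).φ f - f = fun _ : Fin r => c • δ := by
      funext s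
      change (cyc r A).φ f s - (e - ((s : ℕ) : Ω) • (c • δ)) = c • δ
      rw [cyc_φ]
      by_cases hs : s = 0
      · subst hs
        rw [if_pos rfl]
        have h6 : (((0 - 1 : Fin r) : ℕ) : Ω) = (r : Ω) - 1 := by
          have h7 : ((0 - 1 : Fin r) : ℕ) = r - 1 := by
            obtain ⟨m, rfl⟩ : ∃ m, r = m + 1 := ⟨r - 1, (Nat.succ_pred_eq_of_ne_zero (NeZero.ne r)).symm⟩
            rw [zero_sub, Fin.coe_neg_one]
            rfl
          rw [h7, Nat.cast_sub (NeZero.one_le), Nat.cast_one]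
        change A.φ (e - (((0 - 1 : Fin r) : ℕ) : Ω) • (c • δ)) - (e - (((0 : Fin r) : ℕ) : Ω) • (c • δ)) = c • δ
        rw [h6, map_sub, map_smul, map_smul, hδ]
        have h8 : A.φ e = δ + e := (sub_add_cancel _ _).symm
        have h9 : δ = (r : Ω) • (c • δ) := by
          rw [smul_smul, mul_inv_cancel₀ hr, one_smul]
        have h10 : (((0 : Fin r) : ℕ) : Ω) = 0 := by
          rw [Fin.val_zero, Nat.cast_zero]
        rw [h10, zero_smul, sub_zero, h8, sub_smul, one_smul, ← h9]
        abel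
      · rw [if_neg hs]
        have h6 : ((s : ℕ) : Ω) = (((s - 1 : Fin r) : ℕ) : Ω) + 1 := by
          have h7 : ((s - 1 : Fin r) : ℕ) = (s : ℕ) - 1 := by
            obtain ⟨m, rfl⟩ : ∃ m, r = m + 1 := ⟨r - 1, (Nat.succ_pred_eq_of_ne_zero (NeZero.ne r)).symm⟩
            rw [Fin.coe_sub_one, if_neg hs]
          have h8 : 1 ≤ (s : ℕ) := Nat.one_le_iff_ne_zero.mpr fun h => hs (Fin.ext h)
          rw [h7, Nat.cast_sub h8, Nat.cast_one, sub_add_cancel]
        change (e - (((s - 1 : Fin r) : ℕ) : Ω) • (c • δ)) - (e - ((s : ℕ) : Ω) • (c • δ)) = c • δ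
        rw [h6, add_smul, one_smul]
        abel
    have h6 : (cyc r A).φ ((cyc r A).φ f - f) = (cyc r A).φ f - f := by
      rw [hf]
      refine hconst _ ?_
      rw [map_smul, hδ]
    have h7 := h3 f h6
    rw [h7, sub_self] at hf
    have h8 : (0 : A.E) = c • δ := congrFun hf 0
    have h9 : δ = 0 := by
      have h10 : δ = (r : Ω) • (c • δ) := by
        rw [smul_smul, mul_inv_cancel₀ hr, one_smul]
      rw [h10, ← h8, smul_zero]
    exact sub_eq_zero.mp h9

end cyc

end node

section theory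

variable {Ω : Type} [Field Ω] [CharZero Ω] {k : Type} [Field k] {T : Sch k → ℤ → ℤ → Node Ω}
  (hT : IsHomologyTheory T)

include hT

/-- `TB(X)` has the closure properties `Bnd`. -/
theorem bnd_tb : Bnd True (TBconj T) where
  iso h e hX i j := ((hT.iso h e i j).iff).mp (hX i j)
  total i j h ht hZ hU := (hT.localization i j h ht).total hZ hU
  opened i j h ht hZ hX := (hT.localization i j h ht).opened hZ hX
  closed i j h ht hX hU := (hT.localization i j h ht).closed hX hU
  space n := by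
    have h1 : TBconj T (aff k k) := hT.point
    have h3 : TBconj T (aff k (Jou (f1 k n))) := fun i j => by
      have h2 := hT.bundle k (n + 1) (f1 k n) (aff k k) (𝟙 _) inferInstance (range_id n)
        (i - 2 * n) (j - n)
      have h4 : i - 2 * (n : ℤ) + 2 * (((n + 1 : ℕ) : ℤ) - 1) = i := by push_cast; ring
      have h5 : j - (n : ℤ) + (((n + 1 : ℕ) : ℤ) - 1) = j := by push_cast; ring
      rw [h4, h5] at h2
      exact h2.iff.mp (h1 _ _)
    intro i j
    exact (hT.iso (ft_aff True) ⟨(affIso (jouOne k n)).symm⟩ i j).iff.mp (h3 i j)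
  jouanolou A _ _ _ m f U j hj hr h i r := (hT.bundle A m f U j hj hr i r).iff.mpr (h _ _)
  torus A _ _ _ h i r := (hT.torus A i r).regIso (h _ _)
  bundle A _ _ _ m f U j hj hr h i r := by
    have h2 := hT.bundle A m f U j hj hr (i - 2 * (m - 1)) (r - (m - 1))
    rw [sub_add_cancel, sub_add_cancel] at h2
    exact h2.iff.mp (h _ _)

end theory

/-- `TB(X)` has the closure properties `Clo`. -/
theorem clo_tb {Ω : Type} [Field Ω] [CharZero Ω] {k : Type} [Field k]
    {T : Sch k → ℤ → ℤ → Node Ω} (hT : IsHomologyTheory T) : Clo True (TBconj T) where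
  iso := (bnd_tb hT).iso
  total := (bnd_tb hT).total
  opened := (bnd_tb hT).opened
  torus := (bnd_tb hT).torus

section res

variable (p : ℕ) [Fact p.Prime] (K : Type) [Field K] [Finite K] [Algebra (ZMod p) K]

theorem ft_res {X : Sch K} (h : FT True X) : FT True (res p K X) := by
  have h1 := h.locallyOfFiniteType
  have h2 := h.quasiCompact
  have h5 := h.separated trivial
  have hf : Algebra.FiniteType (ZMod p) K := inferInstance
  have h3 : LocallyOfFiniteType (Spec.map (CommRingCat.ofHom (algebraMap (ZMod p) K))) := by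
    rw [HasRingHomProperty.Spec_iff (P := @LocallyOfFiniteType)]
    exact RingHom.finiteType_algebraMap.mpr hf
  have h4 : QuasiCompact (Spec.map (CommRingCat.ofHom (algebraMap (ZMod p) K))) := inferInstance
  have h6 : IsSeparated (Spec.map (CommRingCat.ofHom (algebraMap (ZMod p) K))) := inferInstance
  constructor
  · exact MorphismProperty.comp_mem _ X.hom _ h1 h3
  · exact MorphismProperty.comp_mem _ X.hom _ h2 h4
  · exact fun _ => MorphismProperty.comp_mem _ X.hom _ h5 h6

end res

section final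

variable {Ω : Type} [Field Ω] [CharZero Ω] {ℓ : ℕ}
  {T : ∀ (k : Type) [Field k] [Finite k], Sch k → ℤ → ℤ → Node Ω}

/-- From the prime fields to all finite fields. -/
theorem of_prime (hT : IsTheory ℓ T) (h : ∀ (p : ℕ) [Fact p.Prime], p ≠ ℓ →
      ∀ X : Sch (ZMod p), FT True X → TBconj (T (ZMod p)) X)
    (K : Type) [Field K] [Finite K] (hK : (ℓ : K) ≠ 0) (X : Sch K) (hX : FT True X) :
    TBconj (T K) X := by
  obtain ⟨p, hp⟩ := CharP.exists K
  have hp' : p.Prime := CharP.char_is_prime K p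
  have : Fact p.Prime := ⟨hp'⟩
  let _ : Algebra (ZMod p) K := ZMod.algebra K p
  have : FiniteDimensional (ZMod p) K := inferInstance
  have : NeZero (Module.finrank (ZMod p) K) := ⟨Module.finrank_pos.ne'⟩
  have hne : p ≠ ℓ := by
    rintro rfl
    exact hK (CharP.cast_eq_zero K p)
  intro i j
  have h1 := hT.restriction p K hne X hX i j
  have h2 := h p hne (res p K X) (ft_res p K hX) i j
  exact regIso_of_cyc _ (h1.iff.mp h2)

theorem frac_zmod (p : ℕ) : Function.Surjective (Int.cast : ℤ → ZMod p) := ZMod.intCast_surjective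

theorem cast_ne {p : ℕ} [Fact p.Prime] {ℓ : ℕ} (hℓ : ℓ.Prime) (h : p ≠ ℓ) :
    ((ℓ : ℕ) : ZMod p) ≠ 0 := by
  intro h1
  rw [ZMod.natCast_eq_zero_iff] at h1
  exact h ((Nat.prime_dvd_prime_iff_eq Fact.out hℓ).mp h1)

/-- All finite fields and tripartite hypergraphs. -/
theorem graph_iff (hℓ : ℓ.Prime) (hT : IsTheory ℓ T) :
    (∀ (k : Type) [Field k] [Finite k], (ℓ : k) ≠ 0 → ∀ X : Sch k, FT True X → TBconj (T k) X) ↔
      ∀ (p : ℕ) [Fact p.Prime], p ≠ ℓ → ∀ (a b c : ℕ) (H : Finset (Fin a × Fin b × Fin c)),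
        TBconj (T (ZMod p)) (tripS (ZMod p) H) := by
  constructor
  · intro h p _ hp a b c H
    exact h (ZMod p) (cast_ne hℓ hp) _ (ft_aff True)
  · intro h
    refine of_prime hT fun p _ hp X hX => ?_
    exact universal_int (frac_zmod p) (bnd_tb (hT.field (ZMod p) (cast_ne hℓ hp))).toUni
      (fun a b c H => h p hp a b c H) X hX

/-- All finite fields and three-term bilinear systems. -/
theorem three_terms_iff (hℓ : ℓ.Prime) (hT : IsTheory ℓ T) :
    (∀ (k : Type) [Field k] [Finite k], (ℓ : k) ≠ 0 → ∀ X : Sch k, FT True X → TBconj (T k) X) ↔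
      ∀ (p : ℕ) [Fact p.Prime], p ≠ ℓ → ∀ (a b c : ℕ) (E : Fin c → Finset (Fin a × Fin b)),
        (∀ l, (E l).card ≤ 3) → TBconj (T (ZMod p)) (sysS (ZMod p) E) := by
  constructor
  · intro h p _ hp a b c E _
    exact h (ZMod p) (cast_ne hℓ hp) _ (ft_aff True)
  · intro h
    refine of_prime hT fun p _ hp => ?_
    exact (three_iff (short_presents (frac_zmod p))
      (clo_tb (hT.field (ZMod p) (cast_ne hℓ hp)))).mpr (fun a b c E hE => h p hp a b c E hE)

end final

end Pool.Agent.V5helper77.TB
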